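import Pool.Agent.H37.SC.ISO

/-!
# SC, row EXT: the vertical extent of a minimal cut over a square
-/

set_option autoImplicit false

namespace Pool.SC

namespace H37E

open Finset

theorem climb (ρ r : ℝ) (hρ : 1 ≤ ρ) (hr : 0 ≤ r) (J M : ℕ) (f g : ℕ → ℝ) (hJM : J ≤ M)
    (h1 : ∀ j, j < J → ∑ i ∈ Ioc j M, g i ≤ ρ * f j) (h2 : ∀ j, j < J → f j ≤ 2 * g j ^ 2)
    (hg0 : ∀ j, 0 ≤ g j) (hgJ : 1 ≤ g J) (h3 : ρ * f 0 ≤ r ^ 2 / 2) :
    (J : ℝ) ≤ 3 * Real.sqrt (2 * ρ) * r := by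
  set σ := Real.sqrt (2 * ρ) with hσ
  have hσ2 : σ ^ 2 = 2 * ρ := Real.sq_sqrt (by linarith only [hρ])
  have hσ1 : 1 ≤ σ := by
    rw [hσ, Real.one_le_sqrt]
    linarith only [hρ]
  have hσ0 : 0 < σ := by linarith only [hσ1]
  rcases Nat.eq_zero_or_pos J with hJ | hJ
  · rw [hJ, Nat.cast_zero]
    positivity
  have key : ∀ k : ℕ, k < J → (((k : ℝ) + 1) / (3 * σ)) ^ 2 ≤ ∑ i ∈ Ioc (J - 1 - k) M, g i := by
    intro k
    induction k with
    | zero =>
      intro _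
      have h4 : g J ≤ ∑ i ∈ Ioc (J - 1 - 0) M, g i :=
        single_le_sum (fun i _ => hg0 i) (mem_Ioc.mpr ⟨by omega, hJM⟩)
      refine le_trans ?_ (hgJ.trans h4)
      rw [div_pow, div_le_one (by positivity)]
      have h5 : 1 ≤ (3 * σ) := by linarith only [hσ1]
      have h6 : (1 : ℝ) ^ 2 ≤ (3 * σ) ^ 2 := pow_le_pow_left₀ zero_le_one h5 2
      simpa using h6
    | succ k ih =>
      intro hk
      have ih' := ih (by omega)
      set j := J - 1 - k with hj
      have hj1 : J - 1 - (k + 1) = j - 1 := by omega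
      have hjp : 1 ≤ j := by omega
      have hj2 : Ioc (j - 1) M = insert j (Ioc j M) := by
        ext i
        simp only [mem_Ioc, mem_insert]
        omega
      rw [hj1, hj2, sum_insert (by simp)]
      have h4 := h1 j (by omega)
      have h5 := h2 j (by omega)
      have h6 : (((k : ℝ) + 1) / (3 * σ)) ^ 2 ≤ (σ * g j) ^ 2 := by
        calc (((k : ℝ) + 1) / (3 * σ)) ^ 2 ≤ ρ * f j := ih'.trans h4
          _ ≤ ρ * (2 * g j ^ 2) := mul_le_mul_of_nonneg_left h5 (by linarith only [hρ])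
          _ = (σ * g j) ^ 2 := by rw [mul_pow, hσ2]; ring
      have h7 : ((k : ℝ) + 1) / (3 * σ) ≤ σ * g j := by
        refine (pow_le_pow_iff_left₀ (by positivity) (mul_nonneg hσ0.le (hg0 j)) two_ne_zero).mp h6
      have h8 : ((k : ℝ) + 1) / (3 * σ ^ 2) ≤ g j := by
        rw [div_le_iff₀ (by positivity)]
        rw [div_le_iff₀ (by positivity)] at h7
        calc (k : ℝ) + 1 ≤ σ * g j * (3 * σ) := h7
          _ = g j * (3 * σ ^ 2) := by ring
      have h9 : (((k + 1 : ℕ) : ℝ) + 1) / (3 * σ) = ((k : ℝ) + 2) / (3 * σ) := by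
        push_cast
        ring
      rw [h9]
      have h10 : (((k : ℝ) + 2) / (3 * σ)) ^ 2 ≤
          (((k : ℝ) + 1) / (3 * σ)) ^ 2 + ((k : ℝ) + 1) / (3 * σ ^ 2) := by
        have h11 : (((k : ℝ) + 1) / (3 * σ)) ^ 2 + ((k : ℝ) + 1) / (3 * σ ^ 2) =
            (((k : ℝ) + 1) ^ 2 + 3 * ((k : ℝ) + 1)) / (9 * σ ^ 2) := by
          field_simp
          ring
        rw [h11, div_pow, mul_pow]
        norm_num
        rw [div_le_div_iff_of_pos_right (by positivity)]
        have h12 : (0 : ℝ) ≤ k := Nat.cast_nonneg k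
        nlinarith only [h12]
      linarith only [h10, h8, ih']
  have h4 := key (J - 1) (by omega)
  have h5 : J - 1 - (J - 1) = 0 := by omega
  rw [h5] at h4
  have h6 := h1 0 hJ
  have h7 : (((J - 1 : ℕ) : ℝ) + 1) = J := by
    have : (((J - 1 + 1 : ℕ)) : ℝ) = J := by
      congr 1
      omega
    push_cast at this
    exact this
  rw [h7] at h4
  have h8 : ((J : ℝ) / (3 * σ)) ^ 2 ≤ r ^ 2 := by
    have h9 : 0 ≤ r ^ 2 := sq_nonneg r
    linarith only [h4, h6, h3, h9]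
  have h9 := (pow_le_pow_iff_left₀ (by positivity) hr two_ne_zero).mp h8
  rw [div_le_iff₀ (by positivity)] at h9
  linarith only [h9]

theorem mem_cols (R : Rect) (q : ℤ × ℤ) :
    q ∈ R.cols ↔ (R.x ≤ q.1 ∧ q.1 < R.x + R.w) ∧ (R.y ≤ q.2 ∧ q.2 < R.y + R.l) := by
  unfold Rect.cols
  rw [mem_product, mem_Ico, mem_Ico]

theorem mem_box (R : Rect) (z1 z2 : ℤ) (v : V) :
    v ∈ box R z1 z2 ↔ (v.1, v.2.1) ∈ R.cols ∧ z1 ≤ v.2.2 ∧ v.2.2 ≤ z2 := by
  unfold box
  rw [mem_product, mem_product, mem_cols, mem_Ico, mem_Ico, mem_Icc]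
  tauto

theorem mem_eds (R : Rect) (z1 z2 : ℤ) (e : Ed) :
    e ∈ eds R z1 z2 ↔ hd e ∈ box R z1 z2 ∧ tl e ∈ box R z1 z2 := by
  unfold eds
  rw [mem_filter, mem_product]
  simp only [mem_univ, true_and]
  rfl

theorem mem_cuts (R : Rect) (z1 z2 : ℤ) (S : Set V) (e : Ed) :
    e ∈ cuts R z1 z2 S ↔ e ∈ eds R z1 z2 ∧ cutE S e := by
  unfold cuts
  classical exact mem_filter

theorem tl0 (v : V) : tl (0, v) = (v.1 + 1, v.2.1, v.2.2) := by
  simp [tl, unitv, Prod.ext_iff]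

theorem tl1 (v : V) : tl (1, v) = (v.1, v.2.1 + 1, v.2.2) := by
  simp [tl, unitv, Prod.ext_iff]

theorem tl2 (v : V) : tl (2, v) = (v.1, v.2.1, v.2.2 + 1) := by
  simp [tl, unitv, Prod.ext_iff]

theorem tl_h (e : Ed) : (e.1 = 2 ∧ (tl e).1 = e.2.1 ∧ (tl e).2.1 = e.2.2.1 ∧
    (tl e).2.2 = e.2.2.2 + 1) ∨ (e.1 ≠ 2 ∧ (tl e).2.2 = e.2.2.2) := by
  obtain ⟨i, v⟩ := e
  fin_cases i
  · right
    refine ⟨?_, by rw [show ((⟨0, by decide⟩ : Fin 3), v) = ((0 : Fin 3), v) from rfl, tl0]⟩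
    show (0 : Fin 3) ≠ 2
    decide
  · right
    refine ⟨?_, by rw [show ((⟨1, by decide⟩ : Fin 3), v) = ((1 : Fin 3), v) from rfl, tl1]⟩
    show (1 : Fin 3) ≠ 2
    decide
  · left
    rw [show ((⟨2, by decide⟩ : Fin 3), v) = ((2 : Fin 3), v) from rfl, tl2]
    exact ⟨rfl, rfl, rfl, rfl⟩

open Classical in
/-- the columns of level `h` in `S` -/
noncomputable def lev (r : ℕ) (S : Set V) (h : ℤ) : Finset (ℤ × ℤ) :=
  (sq r r).cols.filter (fun q => (q.1, q.2, h) ∈ S)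

open Classical in
/-- the columns of level `h` outside `S` -/
noncomputable def clev (r : ℕ) (S : Set V) (h : ℤ) : Finset (ℤ × ℤ) :=
  (sq r r).cols.filter (fun q => (q.1, q.2, h) ∉ S)

theorem mem_lev (r : ℕ) (S : Set V) (h : ℤ) (q : ℤ × ℤ) :
    q ∈ lev r S h ↔ q ∈ (sq r r).cols ∧ (q.1, q.2, h) ∈ S := by
  unfold lev
  classical exact mem_filter

theorem mem_clev (r : ℕ) (S : Set V) (h : ℤ) (q : ℤ × ℤ) :
    q ∈ clev r S h ↔ q ∈ (sq r r).cols ∧ (q.1, q.2, h) ∉ S := by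
  unfold clev
  classical exact mem_filter

theorem card_cols (r : ℕ) : (sq r r).cols.card = r ^ 2 := by
  unfold Rect.cols sq
  rw [card_product, Int.card_Ico]
  simp [pow_two]

theorem lev_add (r : ℕ) (S : Set V) (h : ℤ) : (lev r S h).card + (clev r S h).card = r ^ 2 := by
  classical
  rw [← card_cols r]
  unfold lev clev
  exact card_filter_add_card_filter_not (s := (sq r r).cols) (p := fun q => (q.1, q.2, h) ∈ S)

theorem cap_le (a b : ℝ) (hab : a < b) (T : Finset Ed) (e : Ed) : cap a b T e ≤ b := by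
  unfold cap
  split_ifs
  · exact le_rfl
  · exact hab.le

theorem le_cap (a b : ℝ) (hab : a < b) (T : Finset Ed) (e : Ed) : a ≤ cap a b T e := by
  unfold cap
  split_ifs
  · exact hab.le
  · exact le_rfl

/-- cutting everything above level `h` -/
theorem up (a b : ℝ) (ha : 0 < a) (hab : a < b) (r : ℕ) (z1 z2 : ℤ) (T : Finset Ed) (S : Set V)
    (hS : adm (sq r r) z1 z2 S)
    (hmin : ∀ S' : Set V, adm (sq r r) z1 z2 S' →
      en a b T (sq r r) z1 z2 S ≤ en a b T (sq r r) z1 z2 S')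
    (h : ℤ) (h1 : z1 ≤ h) (h2 : h < z2) :
    a * (((cuts (sq r r) z1 z2 S).filter (fun e => h < (tl e).2.2)).card : ℝ) ≤
      b * ((lev r S h).card : ℝ) := by
  classical
  set C := cuts (sq r r) z1 z2 S with hC
  let S' : Set V := {v | v ∈ S ∧ v.2.2 ≤ h}
  have hS' : adm (sq r r) z1 z2 S' := by
    intro v hv
    refine ⟨fun h3 => ⟨(hS v hv).1 h3, h3.trans h1⟩, fun h3 h4 => ?_⟩
    have h5 : v.2.2 ≤ h := h4.2
    omega
  have h3 := hmin S' hS'
  let W : Finset Ed := (lev r S h).image (fun q => ((2 : Fin 3), (q.1, q.2, h)))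
  have h4 : cuts (sq r r) z1 z2 S' ⊆ C.filter (fun e => ¬ h < (tl e).2.2) ∪ W := by
    intro e he
    rw [mem_cuts] at he
    obtain ⟨he1, he2⟩ := he
    rw [mem_union, mem_filter, hC, mem_cuts]
    by_cases h5 : h < (tl e).2.2
    · right
      have h6 : tl e ∉ S' := fun h7 => absurd h7.2 (not_le.mpr h5)
      have h7 : hd e ∈ S' := by
        by_contra h8
        exact he2 ⟨fun h9 => absurd h9 h8, fun h9 => absurd h9 h6⟩
      have h8 : (hd e).2.2 ≤ h := h7.2
      have h8' : e.2.2.2 ≤ h := h8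
      rcases tl_h e with ⟨h9, -, -, h10⟩ | ⟨-, h10⟩
      · rw [mem_image]
        refine ⟨(e.2.1, e.2.2.1), ?_, ?_⟩
        · rw [mem_lev]
          have h11 : e.2.2.2 = h := by omega
          refine ⟨((mem_box _ _ _ _).mp ((mem_eds _ _ _ _).mp he1).1).1, ?_⟩
          rw [← h11]
          exact h7.1
        · have h11 : e.2.2.2 = h := by omega
          rw [← h11, ← h9]
      · exfalso
        omega
    · left
      refine ⟨⟨he1, ?_⟩, h5⟩
      intro h6
      apply he2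
      have h7 : (tl e).2.2 ≤ h := not_lt.mp h5
      have h8 : (hd e).2.2 ≤ h := by
        have h9 : (hd e).2.2 = e.2.2.2 := rfl
        rcases tl_h e with ⟨-, -, -, h10⟩ | ⟨-, h10⟩ <;> omega
      exact ⟨fun h9 => ⟨h6.mp h9.1, h7⟩, fun h9 => ⟨h6.mpr h9.1, h8⟩⟩
  have h5 : en a b T (sq r r) z1 z2 S' ≤
      ∑ e ∈ C.filter (fun e => ¬ h < (tl e).2.2), cap a b T e + b * ((lev r S h).card : ℝ) := by
    unfold en
    calc ∑ e ∈ cuts (sq r r) z1 z2 S', cap a b T e
        ≤ ∑ e ∈ C.filter (fun e => ¬ h < (tl e).2.2) ∪ W, cap a b T e :=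
          sum_le_sum_of_subset_of_nonneg h4 (fun e _ _ => ha.le.trans (le_cap a b hab T e))
      _ ≤ ∑ e ∈ C.filter (fun e => ¬ h < (tl e).2.2), cap a b T e + ∑ e ∈ W, cap a b T e := by
        rw [← sum_union_inter]
        have : 0 ≤ ∑ e ∈ C.filter (fun e => ¬ h < (tl e).2.2) ∩ W, cap a b T e :=
          sum_nonneg fun e _ => ha.le.trans (le_cap a b hab T e)
        linarith only [this]
      _ ≤ _ := by
        have h6 : ∑ e ∈ W, cap a b T e ≤ W.card • b :=
          sum_le_card_nsmul _ _ _ fun e _ => cap_le a b hab T e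
        rw [nsmul_eq_mul] at h6
        have h7 : (W.card : ℝ) ≤ ((lev r S h).card : ℝ) := by exact_mod_cast card_image_le
        have h8 := mul_le_mul_of_nonneg_right h7 (ha.trans hab).le
        linarith only [h6, h8]
  have h6 : en a b T (sq r r) z1 z2 S = ∑ e ∈ C.filter (fun e => h < (tl e).2.2), cap a b T e +
      ∑ e ∈ C.filter (fun e => ¬ h < (tl e).2.2), cap a b T e :=
    (sum_filter_add_sum_filter_not C _ _).symm
  have h7 : (C.filter (fun e => h < (tl e).2.2)).card • a ≤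
      ∑ e ∈ C.filter (fun e => h < (tl e).2.2), cap a b T e :=
    card_nsmul_le_sum _ _ _ fun e _ => le_cap a b hab T e
  rw [nsmul_eq_mul] at h7
  linarith only [h3, h5, h6, h7]

/-- filling everything below level `h` -/
theorem dn (a b : ℝ) (ha : 0 < a) (hab : a < b) (r : ℕ) (z1 z2 : ℤ) (T : Finset Ed) (S : Set V)
    (hS : adm (sq r r) z1 z2 S)
    (hmin : ∀ S' : Set V, adm (sq r r) z1 z2 S' →
      en a b T (sq r r) z1 z2 S ≤ en a b T (sq r r) z1 z2 S')
    (h : ℤ) (h2 : h ≤ z2) :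
    a * (((cuts (sq r r) z1 z2 S).filter (fun e => (hd e).2.2 < h)).card : ℝ) ≤
      b * ((clev r S h).card : ℝ) := by
  classical
  set C := cuts (sq r r) z1 z2 S with hC
  let S' : Set V := {v | v ∈ S ∨ v.2.2 < h}
  have hS' : adm (sq r r) z1 z2 S' := by
    intro v hv
    refine ⟨fun h3 => Or.inl ((hS v hv).1 h3), fun h3 h4 => ?_⟩
    rcases h4 with h4 | h4
    · exact (hS v hv).2 h3 h4
    · omega
  have h3 := hmin S' hS'
  let W : Finset Ed := (clev r S h).image (fun q => ((2 : Fin 3), (q.1, q.2, h - 1)))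
  have h4 : cuts (sq r r) z1 z2 S' ⊆ C.filter (fun e => ¬ (hd e).2.2 < h) ∪ W := by
    intro e he
    rw [mem_cuts] at he
    obtain ⟨he1, he2⟩ := he
    rw [mem_union, mem_filter, hC, mem_cuts]
    by_cases h5 : (hd e).2.2 < h
    · right
      have h6 : hd e ∈ S' := Or.inr h5
      have h7 : tl e ∉ S' := by
        intro h8
        exact he2 ⟨fun _ => h8, fun _ => h6⟩
      have h8 : ¬ (tl e).2.2 < h := fun h9 => h7 (Or.inr h9)
      have h5' : e.2.2.2 < h := h5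
      rcases tl_h e with ⟨h9, h9a, h9b, h10⟩ | ⟨-, h10⟩
      · rw [mem_image]
        refine ⟨(e.2.1, e.2.2.1), ?_, ?_⟩
        · rw [mem_clev]
          have h11 : (tl e).2.2 = h := by omega
          refine ⟨((mem_box _ _ _ _).mp ((mem_eds _ _ _ _).mp he1).1).1, ?_⟩
          intro h12
          apply h7
          left
          rw [← h11] at h12
          have h13 : (e.2.1, e.2.2.1, (tl e).2.2) = tl e := by
            rw [← h9a, ← h9b]
          rwa [h13] at h12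
        · have h11 : e.2.2.2 = h - 1 := by omega
          rw [← h11, ← h9]
      · exfalso
        omega
    · left
      refine ⟨⟨he1, ?_⟩, h5⟩
      intro h6
      apply he2
      have h7 : ¬ (tl e).2.2 < h := by
        have h9 : (hd e).2.2 = e.2.2.2 := rfl
        rcases tl_h e with ⟨-, -, -, h10⟩ | ⟨-, h10⟩ <;> omega
      constructor
      · rintro (h9 | h9)
        · exact Or.inl (h6.mp h9)
        · exact absurd h9 h5
      · rintro (h9 | h9)
        · exact Or.inl (h6.mpr h9)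
        · exact absurd h9 h7
  have h5 : en a b T (sq r r) z1 z2 S' ≤
      ∑ e ∈ C.filter (fun e => ¬ (hd e).2.2 < h), cap a b T e + b * ((clev r S h).card : ℝ) := by
    unfold en
    calc ∑ e ∈ cuts (sq r r) z1 z2 S', cap a b T e
        ≤ ∑ e ∈ C.filter (fun e => ¬ (hd e).2.2 < h) ∪ W, cap a b T e :=
          sum_le_sum_of_subset_of_nonneg h4 (fun e _ _ => ha.le.trans (le_cap a b hab T e))
      _ ≤ ∑ e ∈ C.filter (fun e => ¬ (hd e).2.2 < h), cap a b T e + ∑ e ∈ W, cap a b T e := by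
        rw [← sum_union_inter]
        have : 0 ≤ ∑ e ∈ C.filter (fun e => ¬ (hd e).2.2 < h) ∩ W, cap a b T e :=
          sum_nonneg fun e _ => ha.le.trans (le_cap a b hab T e)
        linarith only [this]
      _ ≤ _ := by
        have h6 : ∑ e ∈ W, cap a b T e ≤ W.card • b :=
          sum_le_card_nsmul _ _ _ fun e _ => cap_le a b hab T e
        rw [nsmul_eq_mul] at h6
        have h7 : (W.card : ℝ) ≤ ((clev r S h).card : ℝ) := by exact_mod_cast card_image_le
        have h8 := mul_le_mul_of_nonneg_right h7 (ha.trans hab).le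
        linarith only [h6, h8]
  have h6 : en a b T (sq r r) z1 z2 S = ∑ e ∈ C.filter (fun e => (hd e).2.2 < h), cap a b T e +
      ∑ e ∈ C.filter (fun e => ¬ (hd e).2.2 < h), cap a b T e :=
    (sum_filter_add_sum_filter_not C _ _).symm
  have h7 : (C.filter (fun e => (hd e).2.2 < h)).card • a ≤
      ∑ e ∈ C.filter (fun e => (hd e).2.2 < h), cap a b T e :=
    card_nsmul_le_sum _ _ _ fun e _ => le_cap a b hab T e
  rw [nsmul_eq_mul] at h7
  linarith only [h3, h5, h6, h7]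

theorem exists_drop (p : ℤ → Prop) (x y : ℤ) (hxy : x ≤ y) (hx : p x) (hy : ¬ p y) :
    ∃ k, x ≤ k ∧ k < y ∧ p k ∧ ¬ p (k + 1) := by
  classical
  have hex : ∃ n : ℕ, ¬ p (x + n) := ⟨(y - x).toNat, by
    rwa [Int.toNat_of_nonneg (by omega), add_sub_cancel]⟩
  have h1 := Nat.find_spec hex
  set n := Nat.find hex with hn
  have h2 : n ≠ 0 := by
    intro h0
    rw [h0] at h1
    simp only [Nat.cast_zero, add_zero] at h1
    exact h1 hx
  have h3 : p (x + ((n - 1 : ℕ) : ℤ)) := by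
    by_contra h4
    exact Nat.find_min hex (m := n - 1) (by omega) h4
  have h4 : n ≤ (y - x).toNat := Nat.find_min' hex (by
    rwa [Int.toNat_of_nonneg (by omega), add_sub_cancel])
  refine ⟨x + ((n - 1 : ℕ) : ℤ), by omega, by omega, h3, ?_⟩
  rwa [show x + ((n - 1 : ℕ) : ℤ) + 1 = x + (n : ℤ) by omega]

theorem lev_top (r : ℕ) (z1 z2 : ℤ) (S : Set V) (hS : adm (sq r r) z1 z2 S) (h : ℤ)
    (hh : z2 ≤ h) : (lev r S h).card = 0 := by
  rw [card_eq_zero, eq_empty_iff_forall_notMem]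
  intro q hq
  rw [mem_lev] at hq
  exact (hS (q.1, q.2, h) hq.1).2 hh hq.2

theorem clev_bot (r : ℕ) (z1 z2 : ℤ) (S : Set V) (hS : adm (sq r r) z1 z2 S) (h : ℤ)
    (hh : h ≤ z1) : (clev r S h).card = 0 := by
  rw [card_eq_zero, eq_empty_iff_forall_notMem]
  intro q hq
  rw [mem_clev] at hq
  exact hq.2 ((hS (q.1, q.2, h) hq.1).1 hh)

theorem lev_le_up (r : ℕ) (z1 z2 : ℤ) (S : Set V) (hS : adm (sq r r) z1 z2 S) (h h' : ℤ)
    (h1 : z1 ≤ h) (h2 : h < h') :
    (lev r S h').card ≤ ((cuts (sq r r) z1 z2 S).filter (fun e => h < (tl e).2.2)).card := by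
  classical
  have key : ∀ q ∈ lev r S h', ∃ k, h' ≤ k ∧ k < z2 ∧ (q.1, q.2, k) ∈ S ∧
      (q.1, q.2, k + 1) ∉ S := by
    intro q hq
    rw [mem_lev] at hq
    have h3 : h' < z2 := by
      by_contra h4
      exact (hS (q.1, q.2, h') hq.1).2 (not_lt.mp h4) hq.2
    exact exists_drop (fun k => (q.1, q.2, k) ∈ S) h' z2 h3.le hq.2
      ((hS (q.1, q.2, z2) hq.1).2 le_rfl)
  choose! k hk1 hk2 hk3 hk4 using key
  apply card_le_card_of_injOn (fun q => ((2 : Fin 3), (q.1, q.2, k q)))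
  · intro q hq
    have hq' := hq
    rw [mem_coe, mem_lev] at hq'
    have e1 := hk1 q hq
    have e2 := hk2 q hq
    rw [mem_coe, mem_filter, mem_cuts, mem_eds, mem_box, mem_box, tl2]
    refine ⟨⟨⟨⟨hq'.1, ?_, ?_⟩, hq'.1, ?_, ?_⟩, ?_⟩, ?_⟩
    · show z1 ≤ k q
      omega
    · show k q ≤ z2
      omega
    · show z1 ≤ k q + 1
      omega
    · show k q + 1 ≤ z2
      omega
    · intro h3
      rw [tl2] at h3
      exact hk4 q hq (h3.mp (hk3 q hq))
    · show h < k q + 1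
      omega
  · intro q _ q' _ heq
    have h3 := congrArg Prod.snd heq
    have h4 := congrArg Prod.fst h3
    have h5 := congrArg (fun v => v.2.1) h3
    exact Prod.ext h4 h5

theorem clev_le_dn (r : ℕ) (z1 z2 : ℤ) (S : Set V) (hS : adm (sq r r) z1 z2 S) (h h' : ℤ)
    (h1 : h ≤ z2) (h2 : h' < h) :
    (clev r S h').card ≤ ((cuts (sq r r) z1 z2 S).filter (fun e => (hd e).2.2 < h)).card := by
  classical
  have key : ∀ q ∈ clev r S h', ∃ k, z1 ≤ k ∧ k < h' ∧ (q.1, q.2, k) ∈ S ∧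
      (q.1, q.2, k + 1) ∉ S := by
    intro q hq
    rw [mem_clev] at hq
    have h3 : z1 < h' := by
      by_contra h4
      exact hq.2 ((hS (q.1, q.2, h') hq.1).1 (not_lt.mp h4))
    exact exists_drop (fun k => (q.1, q.2, k) ∈ S) z1 h' h3.le
      ((hS (q.1, q.2, z1) hq.1).1 le_rfl) hq.2
  choose! k hk1 hk2 hk3 hk4 using key
  apply card_le_card_of_injOn (fun q => ((2 : Fin 3), (q.1, q.2, k q)))
  · intro q hq
    have hq' := hq
    rw [mem_coe, mem_clev] at hq'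
    have e1 := hk1 q hq
    have e2 := hk2 q hq
    rw [mem_coe, mem_filter, mem_cuts, mem_eds, mem_box, mem_box, tl2]
    refine ⟨⟨⟨⟨hq'.1, ?_, ?_⟩, hq'.1, ?_, ?_⟩, ?_⟩, ?_⟩
    · show z1 ≤ k q
      omega
    · show k q ≤ z2
      omega
    · show z1 ≤ k q + 1
      omega
    · show k q + 1 ≤ z2
      omega
    · intro h3
      rw [tl2] at h3
      exact hk4 q hq (h3.mp (hk3 q hq))
    · show k q < h
      omega
  · intro q _ q' _ heq
    have h3 := congrArg Prod.snd heq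
    have h4 := congrArg Prod.fst h3
    have h5 := congrArg (fun v => v.2.1) h3
    exact Prod.ext h4 h5

open Classical in
/-- horizontal cut edges at level `h` -/
noncomputable def gh (r : ℕ) (z1 z2 : ℤ) (S : Set V) (h : ℤ) : ℕ :=
  ((cuts (sq r r) z1 z2 S).filter (fun e => e.1 ≠ 2 ∧ e.2.2.2 = h)).card

theorem sum_gh (r : ℕ) (z1 z2 : ℤ) (S : Set V) (s : Finset ℕ) (φ : ℕ → ℤ)
    (hφ : Function.Injective φ) (B : Finset Ed)
    (hB : ∀ i ∈ s, ∀ e ∈ cuts (sq r r) z1 z2 S, e.1 ≠ 2 → e.2.2.2 = φ i → e ∈ B) :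
    ∑ i ∈ s, gh r z1 z2 S (φ i) ≤ B.card := by
  classical
  unfold gh
  rw [← card_biUnion]
  · apply card_le_card
    intro e he
    rw [mem_biUnion] at he
    obtain ⟨i, hi, he⟩ := he
    rw [mem_filter] at he
    exact hB i hi e he.1 he.2.1 he.2.2
  · intro i _ j _ hij
    rw [Function.onFun, disjoint_left]
    intro e he he'
    rw [mem_filter] at he he'
    exact hij (hφ (he.2.2.symm.trans he'.2.2))

open Classical in
theorem iso_gh (r : ℕ) (z1 z2 : ℤ) (S : Set V) (h : ℤ) (h1 : z1 ≤ h) (h2 : h ≤ z2)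
    (A : Finset (ℤ × ℤ))
    (hA : (∀ q ∈ (sq r r).cols, q ∈ A ↔ (q.1, q.2, h) ∈ S) ∨
      (∀ q ∈ (sq r r).cols, q ∈ A ↔ (q.1, q.2, h) ∉ S)) :
    ((sq r r).cols.filter (fun q => (q.1 + 1, q.2) ∈ (sq r r).cols ∧
      ¬ (q ∈ A ↔ (q.1 + 1, q.2) ∈ A))).card
    + ((sq r r).cols.filter (fun q => (q.1, q.2 + 1) ∈ (sq r r).cols ∧
      ¬ (q ∈ A ↔ (q.1, q.2 + 1) ∈ A))).card ≤ gh r z1 z2 S h := by
  have key : ∀ q q' : ℤ × ℤ, q ∈ (sq r r).cols → q' ∈ (sq r r).cols → ¬ (q ∈ A ↔ q' ∈ A) →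
      ¬ ((q.1, q.2, h) ∈ S ↔ (q'.1, q'.2, h) ∈ S) := by
    intro q q' hq hq' h3 h4
    apply h3
    rcases hA with hA | hA
    · rw [hA q hq, hA q' hq', h4]
    · rw [hA q hq, hA q' hq', h4]
  set X := (sq r r).cols.filter (fun q => (q.1 + 1, q.2) ∈ (sq r r).cols ∧
      ¬ (q ∈ A ↔ (q.1 + 1, q.2) ∈ A)) with hX
  set Y := (sq r r).cols.filter (fun q => (q.1, q.2 + 1) ∈ (sq r r).cols ∧
      ¬ (q ∈ A ↔ (q.1, q.2 + 1) ∈ A)) with hY
  have hinj : ∀ i : Fin 3, Function.Injective (fun q : ℤ × ℤ => ((i, (q.1, q.2, h)) : Ed)) := by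
    intro i q q' heq
    have h3 := congrArg Prod.snd heq
    have h4 := congrArg Prod.fst h3
    have h5 := congrArg (fun v => v.2.1) h3
    exact Prod.ext h4 h5
  rw [← card_image_of_injective X (hinj 0), ← card_image_of_injective Y (hinj 1),
    ← card_union_of_disjoint]
  · unfold gh
    apply card_le_card
    intro e he
    rw [mem_union, mem_image, mem_image] at he
    rw [mem_filter, mem_cuts, mem_eds, mem_box, mem_box]
    rcases he with ⟨q, hq, rfl⟩ | ⟨q, hq, rfl⟩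
    · rw [hX, mem_filter] at hq
      rw [tl0]
      refine ⟨⟨⟨⟨hq.1, h1, h2⟩, hq.2.1, h1, h2⟩, ?_⟩, (by show (0 : Fin 3) ≠ 2; decide), rfl⟩
      intro h3
      rw [tl0] at h3
      exact key q (q.1 + 1, q.2) hq.1 hq.2.1 hq.2.2 h3
    · rw [hY, mem_filter] at hq
      rw [tl1]
      refine ⟨⟨⟨⟨hq.1, h1, h2⟩, hq.2.1, h1, h2⟩, ?_⟩, (by show (1 : Fin 3) ≠ 2; decide), rfl⟩
      intro h3
      rw [tl1] at h3
      exact key q (q.1, q.2 + 1) hq.1 hq.2.1 hq.2.2 h3
  · rw [disjoint_left]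
    intro e he he'
    rw [mem_image] at he he'
    obtain ⟨q, _, rfl⟩ := he
    obtain ⟨q', _, heq⟩ := he'
    have h3 := congrArg Prod.fst heq
    simp at h3

theorem iso_lev (hI : S_ISO) (r : ℕ) (z1 z2 : ℤ) (S : Set V) (h : ℤ) (h1 : z1 ≤ h) (h2 : h ≤ z2)
    (h3 : 2 * (lev r S h).card ≤ r ^ 2) : (lev r S h).card ≤ 2 * gh r z1 z2 S h ^ 2 := by
  have h4 := hI r (lev r S h) (by unfold lev; classical exact filter_subset _ _) h3
  refine h4.trans (Nat.mul_le_mul_left 2 (Nat.pow_le_pow_left ?_ 2))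
  exact iso_gh r z1 z2 S h h1 h2 _ (Or.inl fun q hq => by
    rw [mem_lev]
    exact ⟨fun h => h.2, fun h => ⟨hq, h⟩⟩)

theorem iso_clev (hI : S_ISO) (r : ℕ) (z1 z2 : ℤ) (S : Set V) (h : ℤ) (h1 : z1 ≤ h) (h2 : h ≤ z2)
    (h3 : 2 * (clev r S h).card ≤ r ^ 2) : (clev r S h).card ≤ 2 * gh r z1 z2 S h ^ 2 := by
  have h4 := hI r (clev r S h) (by unfold clev; classical exact filter_subset _ _) h3
  refine h4.trans (Nat.mul_le_mul_left 2 (Nat.pow_le_pow_left ?_ 2))
  exact iso_gh r z1 z2 S h h1 h2 _ (Or.inr fun q hq => by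
    rw [mem_clev]
    exact ⟨fun h => h.2, fun h => ⟨hq, h⟩⟩)

section Main

variable (hI : S_ISO) (a b : ℝ) (ha : 0 < a) (hab : a < b) (r : ℕ) (hr : 1 ≤ r) (z1 z2 : ℤ)
  (T : Finset Ed) (S : Set V) (hS : adm (sq r r) z1 z2 S)
  (hmin : ∀ S' : Set V, adm (sq r r) z1 z2 S' →
    en a b T (sq r r) z1 z2 S ≤ en a b T (sq r r) z1 z2 S')

include hI ha hab hS hmin

/-- the levels above -/
theorem climb_up (h1 : ℤ) (hz1 : z1 ≤ h1) (h3 : b / a * ((lev r S h1).card : ℝ) ≤ (r : ℝ) ^ 2 / 2)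
    (J : ℕ) (hJ : 0 < (lev r S (h1 + J)).card) : (J : ℝ) ≤ 3 * Real.sqrt (2 * (b / a)) * r := by
  classical
  have hρ : 1 ≤ b / a := by
    rw [le_div_iff₀ ha]
    linarith only [hab]
  have htop : h1 + J < z2 := by
    by_contra hc
    have := lev_top r z1 z2 S hS (h1 + J) (not_lt.mp hc)
    omega
  have hU : ∀ h : ℤ, z1 ≤ h → h < z2 →
      (((cuts (sq r r) z1 z2 S).filter (fun e => h < (tl e).2.2)).card : ℝ) ≤
        b / a * ((lev r S h).card : ℝ) := by
    intro h e1 e2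
    have := up a b ha hab r z1 z2 T S hS hmin h e1 e2
    rw [div_mul_eq_mul_div, le_div_iff₀ ha, mul_comm _ a]
    exact this
  have hsm : ∀ j : ℕ, 2 * (lev r S (h1 + j)).card ≤ r ^ 2 := by
    intro j
    have h4 : ((lev r S (h1 + j)).card : ℝ) ≤ (r : ℝ) ^ 2 / 2 := by
      rcases Nat.eq_zero_or_pos j with hj | hj
      · rw [hj, Nat.cast_zero, add_zero]
        refine le_trans ?_ h3
        exact le_mul_of_one_le_left (Nat.cast_nonneg _) hρ
      · by_cases hz : h1 < z2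
        · have h5 := lev_le_up r z1 z2 S hS h1 (h1 + j) hz1 (by omega)
          have h6 : ((lev r S (h1 + j)).card : ℝ) ≤
              (((cuts (sq r r) z1 z2 S).filter (fun e => h1 < (tl e).2.2)).card : ℝ) := by
            exact_mod_cast h5
          exact h6.trans ((hU h1 hz1 hz).trans h3)
        · rw [lev_top r z1 z2 S hS (h1 + j) (by omega), Nat.cast_zero]
          positivity
    have h5 : (2 * (lev r S (h1 + j)).card : ℝ) ≤ (r : ℝ) ^ 2 := by linarith only [h4]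
    exact_mod_cast h5
  have hiso : ∀ j : ℕ, j ≤ J → (lev r S (h1 + j)).card ≤ 2 * gh r z1 z2 S (h1 + j) ^ 2 := by
    intro j hj
    exact iso_lev hI r z1 z2 S (h1 + j) (by omega) (by omega) (hsm j)
  apply climb (b / a) r hρ (Nat.cast_nonneg r) J J (fun j => ((lev r S (h1 + j)).card : ℝ))
    (fun j => (gh r z1 z2 S (h1 + j) : ℝ)) le_rfl
  · intro j hj
    have h4 := hU (h1 + j) (by omega) (by omega)
    refine le_trans ?_ h4
    have h5 := sum_gh r z1 z2 S (Ioc j J) (fun i => h1 + (i : ℤ)) (fun i i' h => by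
      simp only at h
      omega)
      ((cuts (sq r r) z1 z2 S).filter (fun e => h1 + (j : ℤ) < (tl e).2.2)) (by
        intro i hi e he he1 he2
        rw [mem_filter]
        refine ⟨he, ?_⟩
        rw [mem_Ioc] at hi
        rcases tl_h e with ⟨h6, -⟩ | ⟨-, h6⟩
        · exact absurd h6 he1
        · rw [h6, he2]
          omega)
    exact_mod_cast h5
  · intro j hj
    have := hiso j hj.le
    exact_mod_cast this
  · intro j
    exact Nat.cast_nonneg _
  · have h4 := hiso J le_rfl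
    have h5 : 1 ≤ gh r z1 z2 S (h1 + J) := by
      by_contra hc
      have h6 : gh r z1 z2 S (h1 + J) = 0 := by omega
      rw [h6, zero_pow two_ne_zero, mul_zero] at h4
      omega
    exact_mod_cast h5
  · simp only [Nat.cast_zero, add_zero]
    exact h3

/-- the levels below -/
theorem climb_dn (h1 : ℤ) (hz1 : h1 ≤ z2) (h3 : b / a * ((clev r S h1).card : ℝ) ≤ (r : ℝ) ^ 2 / 2)
    (J : ℕ) (hJ : 0 < (clev r S (h1 - J)).card) : (J : ℝ) ≤ 3 * Real.sqrt (2 * (b / a)) * r := by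
  classical
  have hρ : 1 ≤ b / a := by
    rw [le_div_iff₀ ha]
    linarith only [hab]
  have htop : z1 < h1 - J := by
    by_contra hc
    have := clev_bot r z1 z2 S hS (h1 - J) (not_lt.mp hc)
    omega
  have hU : ∀ h : ℤ, h ≤ z2 →
      (((cuts (sq r r) z1 z2 S).filter (fun e => (hd e).2.2 < h)).card : ℝ) ≤
        b / a * ((clev r S h).card : ℝ) := by
    intro h e2
    have := dn a b ha hab r z1 z2 T S hS hmin h e2
    rw [div_mul_eq_mul_div, le_div_iff₀ ha, mul_comm _ a]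
    exact this
  have hsm : ∀ j : ℕ, 2 * (clev r S (h1 - j)).card ≤ r ^ 2 := by
    intro j
    have h4 : ((clev r S (h1 - j)).card : ℝ) ≤ (r : ℝ) ^ 2 / 2 := by
      rcases Nat.eq_zero_or_pos j with hj | hj
      · rw [hj, Nat.cast_zero, sub_zero]
        refine le_trans ?_ h3
        exact le_mul_of_one_le_left (Nat.cast_nonneg _) hρ
      · have h5 := clev_le_dn r z1 z2 S hS h1 (h1 - j) hz1 (by omega)
        have h6 : ((clev r S (h1 - j)).card : ℝ) ≤
            (((cuts (sq r r) z1 z2 S).filter (fun e => (hd e).2.2 < h1)).card : ℝ) := by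
          exact_mod_cast h5
        exact h6.trans ((hU h1 hz1).trans h3)
    have h5 : (2 * (clev r S (h1 - j)).card : ℝ) ≤ (r : ℝ) ^ 2 := by linarith only [h4]
    exact_mod_cast h5
  have hiso : ∀ j : ℕ, j ≤ J → (clev r S (h1 - j)).card ≤ 2 * gh r z1 z2 S (h1 - j) ^ 2 := by
    intro j hj
    exact iso_clev hI r z1 z2 S (h1 - j) (by omega) (by omega) (hsm j)
  apply climb (b / a) r hρ (Nat.cast_nonneg r) J J (fun j => ((clev r S (h1 - j)).card : ℝ))
    (fun j => (gh r z1 z2 S (h1 - j) : ℝ)) le_rfl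
  · intro j hj
    have h4 := hU (h1 - j) (by omega)
    refine le_trans ?_ h4
    have h5 := sum_gh r z1 z2 S (Ioc j J) (fun i => h1 - (i : ℤ)) (fun i i' h => by
      simp only at h
      omega)
      ((cuts (sq r r) z1 z2 S).filter (fun e => (hd e).2.2 < h1 - (j : ℤ))) (by
        intro i hi e he he1 he2
        rw [mem_filter]
        refine ⟨he, ?_⟩
        rw [mem_Ioc] at hi
        show e.2.2.2 < h1 - (j : ℤ)
        rw [he2]
        omega)
    exact_mod_cast h5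
  · intro j hj
    have := hiso j hj.le
    exact_mod_cast this
  · intro j
    exact Nat.cast_nonneg _
  · have h4 := hiso J le_rfl
    have h5 : 1 ≤ gh r z1 z2 S (h1 - J) := by
      by_contra hc
      have h6 : gh r z1 z2 S (h1 - J) = 0 := by omega
      rw [h6, zero_pow two_ne_zero, mul_zero] at h4
      omega
    exact_mod_cast h5
  · simp only [Nat.cast_zero, sub_zero]
    exact h3

include hr

/-- the levels in the middle -/
theorem middle (h2 : ℤ) (hz : z1 ≤ h2) (m : ℕ) (hm : h2 + m < z2)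
    (h3 : ∀ j : ℕ, 1 ≤ j → j ≤ m → (r : ℝ) ^ 2 / 2 < b / a * ((lev r S (h2 + j)).card : ℝ) ∧
      (r : ℝ) ^ 2 / 2 < b / a * ((clev r S (h2 + j)).card : ℝ)) :
    (m : ℝ) ≤ Real.sqrt (2 * (b / a)) ^ 3 * r := by
  classical
  set σ := Real.sqrt (2 * (b / a)) with hσ
  have hρ : 1 ≤ b / a := by
    rw [le_div_iff₀ ha]
    linarith only [hab]
  have hσ2 : σ ^ 2 = 2 * (b / a) := Real.sq_sqrt (by linarith only [hρ])
  have hσ0 : 0 < σ := Real.sqrt_pos.mpr (by linarith only [hρ])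
  have hr0 : (0 : ℝ) < r := by exact_mod_cast (by omega : 0 < r)
  have hg : ∀ j ∈ Ioc 0 m, (r : ℝ) / (2 * σ) ≤ (gh r z1 z2 S (h2 + j) : ℝ) := by
    intro j hj
    rw [mem_Ioc] at hj
    obtain ⟨h4, h5⟩ := h3 j hj.1 hj.2
    have h6 := lev_add r S (h2 + j)
    have h7 : (r : ℝ) ^ 2 / 2 < b / a * (2 * (gh r z1 z2 S (h2 + j) : ℝ) ^ 2) := by
      rcases Nat.lt_or_ge (2 * (lev r S (h2 + j)).card) (r ^ 2 + 1) with h8 | h8
      · have h9 := iso_lev hI r z1 z2 S (h2 + j) (by omega) (by omega) (by omega)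
        refine h4.trans_le (mul_le_mul_of_nonneg_left ?_ (by linarith only [hρ]))
        exact_mod_cast h9
      · have h9 := iso_clev hI r z1 z2 S (h2 + j) (by omega) (by omega) (by omega)
        refine h5.trans_le (mul_le_mul_of_nonneg_left ?_ (by linarith only [hρ]))
        exact_mod_cast h9
    rw [div_le_iff₀ (by positivity)]
    refine (pow_le_pow_iff_left₀ hr0.le (by positivity) two_ne_zero).mp ?_
    calc (r : ℝ) ^ 2 ≤ 2 * (b / a * (2 * (gh r z1 z2 S (h2 + j) : ℝ) ^ 2)) := by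
          linarith only [h7]
      _ = 2 * (gh r z1 z2 S (h2 + j) : ℝ) ^ 2 * σ ^ 2 := by rw [hσ2]; ring
      _ ≤ ((gh r z1 z2 S (h2 + j) : ℝ) * (2 * σ)) ^ 2 := by
        have h8 : 0 ≤ (gh r z1 z2 S (h2 + j) : ℝ) ^ 2 * σ ^ 2 := by positivity
        have h9 : ((gh r z1 z2 S (h2 + j) : ℝ) * (2 * σ)) ^ 2 =
            4 * ((gh r z1 z2 S (h2 + j) : ℝ) ^ 2 * σ ^ 2) := by ring
        rw [h9]
        linarith only [h8]
  have h4 : (m : ℝ) * (r / (2 * σ)) ≤ ∑ j ∈ Ioc 0 m, (gh r z1 z2 S (h2 + j) : ℝ) := by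
    have h5 := card_nsmul_le_sum (Ioc 0 m) _ _ hg
    rw [Nat.card_Ioc, nsmul_eq_mul, Nat.sub_zero] at h5
    exact h5
  have h5 := sum_gh r z1 z2 S (Ioc 0 m) (fun i => h2 + (i : ℤ)) (fun i i' h => by
      simp only at h
      omega)
      ((cuts (sq r r) z1 z2 S).filter (fun e => z1 < (tl e).2.2)) (by
        intro i hi e he he1 he2
        rw [mem_filter]
        refine ⟨he, ?_⟩
        rw [mem_Ioc] at hi
        rcases tl_h e with ⟨h6, -⟩ | ⟨-, h6⟩
        · exact absurd h6 he1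
        · rw [h6, he2]
          omega)
  have h6 := up a b ha hab r z1 z2 T S hS hmin z1 le_rfl (by omega)
  have h7 : ((lev r S z1).card : ℝ) ≤ (r : ℝ) ^ 2 := by
    have := lev_add r S z1
    exact_mod_cast (by omega : (lev r S z1).card ≤ r ^ 2)
  have h8 : (((cuts (sq r r) z1 z2 S).filter (fun e => z1 < (tl e).2.2)).card : ℝ) ≤
      b / a * (r : ℝ) ^ 2 := by
    rw [div_mul_eq_mul_div, le_div_iff₀ ha, mul_comm _ a]
    exact h6.trans (mul_le_mul_of_nonneg_left h7 (ha.trans hab).le)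
  have h9 : (m : ℝ) * (r / (2 * σ)) ≤ b / a * (r : ℝ) ^ 2 := by
    refine h4.trans (le_trans ?_ h8)
    exact_mod_cast h5
  have h10 : (m : ℝ) * (r / (2 * σ)) ≤ σ ^ 2 / 2 * (r : ℝ) ^ 2 := by
    rw [hσ2]
    linarith only [h9]
  have h11 : (m : ℝ) * r ≤ (σ ^ 3 * r) * r := by
    calc (m : ℝ) * r = (m : ℝ) * (r / (2 * σ)) * (2 * σ) := by field_simp
      _ ≤ σ ^ 2 / 2 * (r : ℝ) ^ 2 * (2 * σ) := mul_le_mul_of_nonneg_right h10 (by positivity)
      _ = (σ ^ 3 * r) * r := by ring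
  exact le_of_mul_le_mul_right h11 hr0

end Main

end H37E

open H37E in
theorem ext_thm' (hI : S_ISO) : S_EXT := by
  classical
  intro a b ha hab
  set σ := Real.sqrt (2 * (b / a)) with hσ
  have hσ0 : 0 ≤ σ := Real.sqrt_nonneg _
  set K1 : ℕ := ⌈3 * σ⌉₊ with hK1
  set K3 : ℕ := ⌈σ ^ 3⌉₊ with hK3
  have hK1' : 3 * σ ≤ K1 := Nat.le_ceil _
  have hK3' : σ ^ 3 ≤ K3 := Nat.le_ceil _
  refine ⟨2 * K1 + K3 + 3, by omega, fun r z1 z2 T S hr hz hS hE => ?_⟩
  have hr0 : (0 : ℝ) < r := by exact_mod_cast (by omega : 0 < r)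
  have hmin : ∀ S' : Set V, adm (sq r r) z1 z2 S' →
      en a b T (sq r r) z1 z2 S ≤ en a b T (sq r r) z1 z2 S' := by
    intro S' hS'
    rw [hE]
    unfold flow flowC
    apply csInf_le
    · refine ⟨0, ?_⟩
      rintro x ⟨S'', _, _, rfl⟩
      exact Finset.sum_nonneg fun e _ => ha.le.trans (le_cap a b hab T e)
    · exact ⟨S', hS', trivial, rfl⟩
  -- the level `h1`
  have ex1 : ∃ n : ℕ, b / a * ((lev r S (z1 + n)).card : ℝ) ≤ (r : ℝ) ^ 2 / 2 := by
    refine ⟨(z2 - z1).toNat, ?_⟩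
    rw [lev_top r z1 z2 S hS (z1 + ((z2 - z1).toNat : ℤ)) (by omega), Nat.cast_zero, mul_zero]
    positivity
  have hn1 := Nat.find_spec ex1
  have hn1' : ∀ m, m < Nat.find ex1 → ¬ (b / a * ((lev r S (z1 + m)).card : ℝ) ≤ (r : ℝ) ^ 2 / 2) :=
    fun m hm => Nat.find_min ex1 hm
  have hn1t : Nat.find ex1 ≤ (z2 - z1).toNat := Nat.find_min' ex1 (by
    rw [lev_top r z1 z2 S hS (z1 + ((z2 - z1).toNat : ℤ)) (by omega), Nat.cast_zero, mul_zero]
    positivity)
  set n1 := Nat.find ex1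
  -- the level `h2`
  have ex2 : ∃ n : ℕ, b / a * ((clev r S (z2 - n)).card : ℝ) ≤ (r : ℝ) ^ 2 / 2 := by
    refine ⟨(z2 - z1).toNat, ?_⟩
    rw [clev_bot r z1 z2 S hS (z2 - ((z2 - z1).toNat : ℤ)) (by omega), Nat.cast_zero, mul_zero]
    positivity
  have hn2 := Nat.find_spec ex2
  have hn2' : ∀ m, m < Nat.find ex2 →
      ¬ (b / a * ((clev r S (z2 - m)).card : ℝ) ≤ (r : ℝ) ^ 2 / 2) :=
    fun m hm => Nat.find_min ex2 hm
  have hn2t : Nat.find ex2 ≤ (z2 - z1).toNat := Nat.find_min' ex2 (by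
    rw [clev_bot r z1 z2 S hS (z2 - ((z2 - z1).toNat : ℤ)) (by omega), Nat.cast_zero, mul_zero]
    positivity)
  set n2 := Nat.find ex2
  -- the middle levels
  have hmid : ((z1 + n1) - (z2 - n2) - 1 : ℤ) ≤ (K3 * r : ℕ) := by
    by_contra hc
    have hc' := not_le.mp hc
    set m : ℕ := ((z1 + n1) - (z2 - n2) - 1).toNat with hm
    have hm1 : ((K3 * r : ℕ) : ℤ) < m := by omega
    have h5 := middle hI a b ha hab r hr z1 z2 T S hS hmin (z2 - n2) (by omega) m (by omega) (by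
      intro j hj1 hj2
      have e1 := hn1' (z2 - n2 + j - z1).toNat (by omega)
      have e2 := hn2' (n2 - j) (by omega)
      rw [show z1 + ((z2 - n2 + j - z1).toNat : ℤ) = z2 - n2 + j by omega] at e1
      rw [show z2 - ((n2 - j : ℕ) : ℤ) = z2 - n2 + j by omega] at e2
      exact ⟨not_le.mp e1, not_le.mp e2⟩)
    have h6 : (m : ℝ) ≤ K3 * r := h5.trans (mul_le_mul_of_nonneg_right hK3' hr0.le)
    have h7 : m ≤ K3 * r := by exact_mod_cast h6
    omega
  have hup : ∀ J : ℕ, 0 < (lev r S (z1 + n1 + J)).card → J ≤ K1 * r := by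
    intro J hJ
    have h5 := climb_up hI a b ha hab r z1 z2 T S hS hmin (z1 + n1) (by omega) hn1 J hJ
    have h6 : (J : ℝ) ≤ K1 * r := h5.trans (mul_le_mul_of_nonneg_right hK1' hr0.le)
    exact_mod_cast h6
  have hdn : ∀ J : ℕ, 0 < (clev r S (z2 - n2 - J)).card → J ≤ K1 * r := by
    intro J hJ
    have h5 := climb_dn hI a b ha hab r z1 z2 T S hS hmin (z2 - n2) (by omega) hn2 J hJ
    have h6 : (J : ℝ) ≤ K1 * r := h5.trans (mul_le_mul_of_nonneg_right hK1' hr0.le)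
    exact_mod_cast h6
  have hKr : ((2 * K1 + K3 + 3 : ℕ) : ℤ) * r = 2 * ((K1 * r : ℕ) : ℤ) + ((K3 * r : ℕ) : ℤ) +
      3 * r := by
    push_cast
    ring
  refine ⟨max z1 (z2 - n2 - (K1 * r : ℕ) - 1), le_max_left _ _, by omega, fun v hv => ⟨?_, ?_⟩⟩
  · intro h5
    by_contra h6
    by_cases h7 : v.2.2 ≤ z1
    · exact h6 ((hS v hv).1 h7)
    · have h8 : v.2.2 ≤ z2 - n2 - (K1 * r : ℕ) - 1 := by omega
      set J : ℕ := (z2 - n2 - v.2.2).toNat with hJ
      have h9 : 0 < (clev r S (z2 - n2 - J)).card := by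
        apply Finset.card_pos.mpr
        refine ⟨(v.1, v.2.1), ?_⟩
        rw [mem_clev]
        refine ⟨hv, ?_⟩
        rw [show z2 - n2 - (J : ℤ) = v.2.2 by omega]
        exact h6
      have := hdn J h9
      omega
  · intro h5 h6
    rw [hKr] at h5
    have h7 : z1 + n1 + (K1 * r : ℕ) < v.2.2 := by omega
    set J : ℕ := (v.2.2 - (z1 + n1)).toNat with hJ
    have h9 : 0 < (lev r S (z1 + n1 + J)).card := by
      apply Finset.card_pos.mpr
      refine ⟨(v.1, v.2.1), ?_⟩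
      rw [mem_lev]
      refine ⟨hv, ?_⟩
      rw [show z1 + n1 + (J : ℤ) = v.2.2 by omega]
      exact h6
    have := hup J h9
    omega

/-- the vertical extent of a minimal cut over a square -/
theorem ext_thm : S_EXT := ext_thm' iso_thm

end Pool.SC
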