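import Pool.Agent.H61.SC.Stmts

/-!
# SC, row ISO: isoperimetry in a square
-/

set_option autoImplicit false

namespace Pool.SC

namespace H37I

open Finset

theorem drop (p : ℤ → Prop) (x y : ℤ) (hxy : x ≤ y) (hx : p x) (hy : ¬ p y) :
    ∃ k, x ≤ k ∧ k < y ∧ p k ∧ ¬ p (k + 1) := by
  classical
  have hex : ∃ n : ℕ, ¬ p (x + n) := ⟨(y - x).toNat, by
    rwa [Int.toNat_of_nonneg (by omega), add_sub_cancel]⟩
  have h1 := Nat.find_spec hex
  set n := Nat.find hex with hn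
  have h2 : n ≠ 0 := by
    intro h0
    rw [h0] at h1
    simp only [Nat.cast_zero, add_zero] at h1
    exact h1 hx
  have h3 : p (x + ((n - 1 : ℕ) : ℤ)) := by
    by_contra h4
    exact Nat.find_min hex (m := n - 1) (by omega) h4
  have h4 : n ≤ (y - x).toNat := Nat.find_min' hex (by
    rwa [Int.toNat_of_nonneg (by omega), add_sub_cancel])
  refine ⟨x + ((n - 1 : ℕ) : ℤ), by omega, by omega, h3, ?_⟩
  rwa [show x + ((n - 1 : ℕ) : ℤ) + 1 = x + (n : ℤ) by omega]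

theorem switch (p : ℤ → Prop) (n : ℤ) (h1 : ∃ y, 0 ≤ y ∧ y < n ∧ p y)
    (h2 : ∃ y, 0 ≤ y ∧ y < n ∧ ¬ p y) : ∃ k, 0 ≤ k ∧ k + 1 < n ∧ ¬ (p k ↔ p (k + 1)) := by
  obtain ⟨y, hy1, hy2, hy3⟩ := h1
  obtain ⟨y', hy1', hy2', hy3'⟩ := h2
  rcases le_total y y' with h | h
  · obtain ⟨k, e1, e2, e3, e4⟩ := drop p y y' h hy3 hy3'
    exact ⟨k, by omega, by omega, fun h5 => e4 (h5.mp e3)⟩
  · obtain ⟨k, e1, e2, e3, e4⟩ := drop (fun z => ¬ p z) y' y h hy3' (not_not.mpr hy3)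
    exact ⟨k, by omega, by omega, fun h5 => e4 (fun h6 => e3 (h5.mpr h6))⟩

theorem mem_sq (n : ℕ) (q : ℤ × ℤ) :
    q ∈ (sq n n).cols ↔ (0 ≤ q.1 ∧ q.1 < n) ∧ (0 ≤ q.2 ∧ q.2 < n) := by
  unfold Rect.cols sq
  rw [mem_product, mem_Ico, mem_Ico]
  simp

theorem arith (n a x y f : ℕ) (h1 : 2 * a ≤ n ^ 2) (h2 : f * n ≤ a) (h3 : n ≤ f + y) :
    a ≤ 2 * (x + y) ^ 2 := by
  rcases Nat.eq_zero_or_pos n with hn | hn
  · rw [hn] at h1
    have : a = 0 := by simpa using h1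
    omega
  · have h4 : 2 * f ≤ n := by
      have h5 : n * (2 * f) ≤ n * n := by
        calc n * (2 * f) = 2 * (f * n) := by ring
          _ ≤ 2 * a := by omega
          _ ≤ n * n := by rw [← pow_two]; exact h1
      exact Nat.le_of_mul_le_mul_left h5 hn
    have h5 : n ≤ 2 * (x + y) := by omega
    have h6 : n ^ 2 ≤ (2 * (x + y)) ^ 2 := Nat.pow_le_pow_left h5 2
    have h7 : (2 * (x + y)) ^ 2 = 4 * (x + y) ^ 2 := by ring
    omega

end H37I

open H37I Finset in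
theorem iso_thm : S_ISO := by
  classical
  intro n A hA h2
  set X := (sq n n).cols.filter (fun q => (q.1 + 1, q.2) ∈ (sq n n).cols ∧
      ¬ (q ∈ A ↔ (q.1 + 1, q.2) ∈ A)) with hX
  set Y := (sq n n).cols.filter (fun q => (q.1, q.2 + 1) ∈ (sq n n).cols ∧
      ¬ (q ∈ A ↔ (q.1, q.2 + 1) ∈ A)) with hY
  let I : Finset ℤ := Ico 0 (n : ℤ)
  have hIc : I.card = n := by simp [I]
  let MC : Finset ℤ := I.filter (fun x => (∃ y, 0 ≤ y ∧ y < (n : ℤ) ∧ (x, y) ∈ A) ∧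
    ∃ y, 0 ≤ y ∧ y < (n : ℤ) ∧ (x, y) ∉ A)
  let MR : Finset ℤ := I.filter (fun y => (∃ x, 0 ≤ x ∧ x < (n : ℤ) ∧ (x, y) ∈ A) ∧
    ∃ x, 0 ≤ x ∧ x < (n : ℤ) ∧ (x, y) ∉ A)
  have hMC : MC.card ≤ Y.card := by
    have key : ∀ x ∈ MC, ∃ k, 0 ≤ k ∧ k + 1 < (n : ℤ) ∧ ¬ ((x, k) ∈ A ↔ (x, k + 1) ∈ A) := by
      intro x hx
      rw [mem_filter] at hx
      exact switch (fun y => (x, y) ∈ A) n hx.2.1 hx.2.2
    choose! k hk1 hk2 hk3 using key
    apply card_le_card_of_injOn (fun x => (x, k x))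
    · intro x hx
      have e1 := hk1 x hx
      have e2 := hk2 x hx
      have hx' : 0 ≤ x ∧ x < (n : ℤ) := mem_Ico.mp (mem_filter.mp (mem_coe.mp hx)).1
      rw [mem_coe, hY, mem_filter, mem_sq, mem_sq]
      refine ⟨⟨hx', e1, by show k x < n; omega⟩, ⟨hx', by show 0 ≤ k x + 1; omega, e2⟩, hk3 x hx⟩
    · intro x _ x' _ heq
      exact congrArg Prod.fst heq
  have hMR : MR.card ≤ X.card := by
    have key : ∀ y ∈ MR, ∃ k, 0 ≤ k ∧ k + 1 < (n : ℤ) ∧ ¬ ((k, y) ∈ A ↔ (k + 1, y) ∈ A) := by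
      intro y hy
      rw [mem_filter] at hy
      exact switch (fun x => (x, y) ∈ A) n hy.2.1 hy.2.2
    choose! k hk1 hk2 hk3 using key
    apply card_le_card_of_injOn (fun y => (k y, y))
    · intro y hy
      have e1 := hk1 y hy
      have e2 := hk2 y hy
      have hy' : 0 ≤ y ∧ y < (n : ℤ) := mem_Ico.mp (mem_filter.mp (mem_coe.mp hy)).1
      rw [mem_coe, hX, mem_filter, mem_sq, mem_sq]
      refine ⟨⟨⟨e1, by show k y < n; omega⟩, hy'⟩, ⟨⟨by show 0 ≤ k y + 1; omega, e2⟩, hy'⟩, hk3 y hy⟩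
    · intro y _ y' _ heq
      exact congrArg Prod.snd heq
  by_cases hrow : ∃ y, 0 ≤ y ∧ y < (n : ℤ) ∧ ∀ x, 0 ≤ x → x < (n : ℤ) → (x, y) ∈ A
  · obtain ⟨y0, hy0, hy1, hy2⟩ := hrow
    let FC : Finset ℤ := I.filter (fun x => ∀ y, (0 ≤ y ∧ y < (n : ℤ)) → (x, y) ∈ A)
    have h3 : FC.card * n ≤ A.card := by
      have h4 : FC ×ˢ I ⊆ A := by
        intro q hq
        rw [mem_product] at hq
        have h5 := mem_Ico.mp hq.2
        exact (mem_filter.mp hq.1).2 q.2 h5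
      have h5 := card_le_card h4
      rwa [card_product, hIc] at h5
    have h4 : n ≤ FC.card + MC.card := by
      have h5 : I ⊆ FC ∪ MC := by
        intro x hx
        have hx' := mem_Ico.mp hx
        rw [mem_union, mem_filter, mem_filter]
        by_cases h6 : ∀ y, (0 ≤ y ∧ y < (n : ℤ)) → (x, y) ∈ A
        · exact Or.inl ⟨hx, h6⟩
        · push Not at h6
          obtain ⟨y, ⟨e1, e2⟩, e3⟩ := h6
          exact Or.inr ⟨hx, ⟨y0, hy0, hy1, hy2 x hx'.1 hx'.2⟩, y, e1, e2, e3⟩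
      have h6 := (card_le_card h5).trans (card_union_le _ _)
      rwa [hIc] at h6
    exact arith n A.card X.card Y.card FC.card h2 h3 (by omega)
  by_cases hcol : ∃ x, 0 ≤ x ∧ x < (n : ℤ) ∧ ∀ y, 0 ≤ y → y < (n : ℤ) → (x, y) ∈ A
  · obtain ⟨x0, hx0, hx1, hx2⟩ := hcol
    let FR : Finset ℤ := I.filter (fun y => ∀ x, (0 ≤ x ∧ x < (n : ℤ)) → (x, y) ∈ A)
    have h3 : FR.card * n ≤ A.card := by
      have h4 : I ×ˢ FR ⊆ A := by
        intro q hq
        rw [mem_product] at hq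
        have h5 := mem_Ico.mp hq.1
        exact (mem_filter.mp hq.2).2 q.1 h5
      have h5 := card_le_card h4
      rw [card_product, hIc, mul_comm] at h5
      exact h5
    have h4 : n ≤ FR.card + MR.card := by
      have h5 : I ⊆ FR ∪ MR := by
        intro y hy
        have hy' := mem_Ico.mp hy
        rw [mem_union, mem_filter, mem_filter]
        by_cases h6 : ∀ x, (0 ≤ x ∧ x < (n : ℤ)) → (x, y) ∈ A
        · exact Or.inl ⟨hy, h6⟩
        · push Not at h6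
          obtain ⟨x, ⟨e1, e2⟩, e3⟩ := h6
          exact Or.inr ⟨hy, ⟨x0, hx0, hx1, hx2 y hy'.1 hy'.2⟩, x, e1, e2, e3⟩
      have h6 := (card_le_card h5).trans (card_union_le _ _)
      rwa [hIc] at h6
    have h5 := arith n A.card Y.card X.card FR.card h2 h3 (by omega)
    rwa [add_comm] at h5
  · push Not at hrow hcol
    have h3 : A ⊆ MC ×ˢ MR := by
      intro q hq
      have h4 := (mem_sq n q).mp (hA hq)
      rw [mem_product, mem_filter, mem_filter]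
      obtain ⟨x, e1, e2, e3⟩ := hrow q.2 h4.2.1 h4.2.2
      obtain ⟨y, e4, e5, e6⟩ := hcol q.1 h4.1.1 h4.1.2
      exact ⟨⟨mem_Ico.mpr h4.1, ⟨q.2, h4.2.1, h4.2.2, hq⟩, y, e4, e5, e6⟩,
        ⟨mem_Ico.mpr h4.2, ⟨q.1, h4.1.1, h4.1.2, hq⟩, x, e1, e2, e3⟩⟩
    have h4 := card_le_card h3
    rw [card_product] at h4
    calc A.card ≤ MC.card * MR.card := h4
      _ ≤ Y.card * X.card := Nat.mul_le_mul hMC hMR
      _ ≤ 2 * (X.card + Y.card) ^ 2 := by nlinarith only [Nat.zero_le X.card, Nat.zero_le Y.card]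

end Pool.SC
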